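import Pool.Agent.K7.H12.UI.Defs

/-!
Project UI (MP_c25556_co), JOB SPLIT, and basic lemmas on `mu`.
-/

set_option autoImplicit false
set_option linter.unusedSectionVars false

namespace Pool.Agent.K7.H42.UI

open Pool.Agent.K7.H12.UI

variable {X V : Type} [Finite X] [Finite V]

theorem mu_mono {F : SimpleGraph X} {G G' : SimpleGraph V} {E E' : (X → V) → Prop}
    (h : homs F G E ⊆ homs F G' E') : mu F G E ≤ mu F G' E' := by
  unfold mu
  have h1 : (homs F G E).ncard ≤ (homs F G' E').ncard := Set.ncard_le_ncard h (Set.toFinite _)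
  have h2 : ((homs F G E).ncard : ℝ) ≤ (homs F G' E').ncard := by exact_mod_cast h1
  exact div_le_div_of_nonneg_right h2 (by positivity)

theorem mu_le_add {F : SimpleGraph X} {G G1 G2 : SimpleGraph V} {E E1 E2 : (X → V) → Prop}
    (h : homs F G E ⊆ homs F G1 E1 ∪ homs F G2 E2) : mu F G E ≤ mu F G1 E1 + mu F G2 E2 := by
  unfold mu
  rw [← add_div]
  have h1 : (homs F G E).ncard ≤ (homs F G1 E1 ∪ homs F G2 E2).ncard :=
    Set.ncard_le_ncard h (Set.toFinite _)
  have h3 := Set.ncard_union_le (homs F G1 E1) (homs F G2 E2)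
  have h2 : ((homs F G E).ncard : ℝ) ≤ (homs F G1 E1).ncard + (homs F G2 E2).ncard := by
    exact_mod_cast h1.trans h3
  exact div_le_div_of_nonneg_right h2 (by positivity)

theorem mu_eq_add {F : SimpleGraph X} {G G1 G2 : SimpleGraph V} {E E1 E2 : (X → V) → Prop}
    (h : homs F G E = homs F G1 E1 ∪ homs F G2 E2)
    (hd : Disjoint (homs F G1 E1) (homs F G2 E2)) : mu F G E = mu F G1 E1 + mu F G2 E2 := by
  unfold mu
  rw [← add_div, h, Set.ncard_union_eq hd (Set.toFinite _) (Set.toFinite _)]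
  push_cast
  rfl

theorem mu_nonneg (F : SimpleGraph X) (G : SimpleGraph V) (E : (X → V) → Prop) :
    0 ≤ mu F G E := by
  unfold mu; positivity

theorem err_nonneg (X V : Type) (q : ℕ) : 0 ≤ err X V q := by
  unfold err; positivity

theorem err_succ (X V : Type) (q : ℕ) :
    err X V (q + 1) = err X V q * ((Nat.card X : ℝ) / (Nat.card V : ℝ)) := by
  unfold err; rw [pow_succ]

theorem upd_mono {G : SimpleGraph V} {s : V} {P P' : Set V}
    (h : P ⊆ P') {a b : V} (hab : (upd G s P).Adj a b) : (upd G s P').Adj a b := by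
  rcases hab with h1 | ⟨h1, h2, h3⟩ | ⟨h1, h2, h3⟩
  · exact Or.inl h1
  · exact Or.inr (Or.inl ⟨h1, h2, h h3⟩)
  · exact Or.inr (Or.inr ⟨h1, h2, h h3⟩)

/-- a homomorphism that does not use the edges from `s` to `P' \ P` -/
theorem hom_of_not_uses {F : SimpleGraph X} {G : SimpleGraph V} {s : V}
    {P P' : Set V} {φ : X → V} (hφ : ∀ x y, F.Adj x y → (upd G s P').Adj (φ x) (φ y))
    (h : ∀ c ∈ P', c ∉ P → ¬ Uses F s c φ) : ∀ x y, F.Adj x y → (upd G s P).Adj (φ x) (φ y) := by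
  intro x y hxy
  rcases hφ x y hxy with h2 | ⟨h2, h3, h4⟩ | ⟨h2, h3, h4⟩
  · exact Or.inl h2
  · refine Or.inr (Or.inl ⟨h2, h3, ?_⟩)
    by_contra hc
    exact h _ h4 hc ⟨x, y, hxy, h2, rfl⟩
  · refine Or.inr (Or.inr ⟨h2, h3, ?_⟩)
    by_contra hc
    exact h _ h4 hc ⟨y, x, hxy.symm, h2, rfl⟩

theorem not_uses_of_hom {F : SimpleGraph X} {G : SimpleGraph V} {s c : V}
    {P : Set V} {φ : X → V} (hφ : ∀ x y, F.Adj x y → (upd G s P).Adj (φ x) (φ y)) (hc : c ∉ P)
    (hcs : c ≠ s) : ¬ Uses F s c φ := by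
  rintro ⟨x, y, hxy, h1, h2⟩
  have h3 := hφ x y hxy
  rw [h1, h2] at h3
  rcases h3 with h3 | h3 | h3
  · exact h3.1 rfl
  · exact hc h3.2.2
  · exact hcs h3.1

/-- JOB SPLIT -/
theorem split (hUB : StUB) : StSplit := by
  intro X V _ _ _ F G s E
  refine ⟨fun P P' h => mu_mono fun φ hφ => ⟨hφ.1, fun x y hxy => upd_mono h (hφ.2.1 x y hxy),
    hφ.2.2⟩, fun P c hc hcs => ?_, fun hE P P' h => ?_⟩
  · refine mu_eq_add (Set.Subset.antisymm ?_ ?_) ?_
    · rintro φ ⟨h1, h2, h3⟩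
      by_cases hu : Uses F s c φ
      · exact Or.inr ⟨h1, h2, h3, hu⟩
      · refine Or.inl ⟨h1, hom_of_not_uses h2 ?_, h3⟩
        rintro d (rfl | hd) hd'
        · exact hu
        · exact absurd hd hd'
    · rintro φ (⟨h1, h2, h3⟩ | ⟨h1, h2, h3⟩)
      · exact ⟨h1, fun x y hxy => upd_mono (Set.subset_insert _ _) (h2 x y hxy), h3⟩
      · exact ⟨h1, h2, h3.1⟩
    · rw [Set.disjoint_left]
      rintro φ ⟨h1, h2, h3⟩ ⟨h4, h5, h6⟩
      exact not_uses_of_hom h2 hc hcs h6.2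
  · classical
    have h1 : mu F (upd G s P') E ≤ mu F (upd G s P) E +
        mu F (upd G s P') (fun φ => E φ ∧ ∃ c ∈ P' \ P, Uses F s c φ) := by
      refine mu_le_add ?_
      rintro φ ⟨h1, h2, h3⟩
      by_cases hu : ∃ c ∈ P' \ P, Uses F s c φ
      · exact Or.inr ⟨h1, h2, h3, hu⟩
      · refine Or.inl ⟨h1, hom_of_not_uses h2 ?_, h3⟩
        intro c hc hc' hcu
        exact hu ⟨c, ⟨hc, hc'⟩, hcu⟩
    have h2 := (hUB X V F (upd G s P') (fun φ => E φ ∧ ∃ c ∈ P' \ P, Uses F s c φ) {s}).2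
      (P' \ P) (by
        rintro φ hφ ⟨h3, c, hc, x, y, hxy, h4, h5⟩
        refine ⟨fun a ha => ?_, c, hc, ?_, ⟨y, h5⟩⟩
        · rw [Finset.mem_singleton] at ha
          rw [ha]
          exact hE φ h3
        · rw [Finset.mem_singleton, ← h4, ← h5]
          intro h6
          have := hφ h6
          subst this
          exact F.loopless.irrefl _ hxy)
    rw [Finset.card_singleton] at h2
    linarith

end Pool.Agent.K7.H42.UI
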