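import Pool.Agent.K7.H12.UI.Conc
import Pool.Agent.K7.H42.UI.Split
import Pool.Agent.K7.H42.FI.Row

/-!
Project UI (MP_c25556_co), JOB ROW.
-/

set_option autoImplicit false
set_option linter.unusedSectionVars false

namespace Pool.Agent.K7.H42.UI

open Pool.Agent.K7.H12.UI

theorem mem_nb {P : Par} {a c : Vt P} : c ∈ nb (gph P) a ↔ a ≠ c ∧ ¬ Mis P (lab a) (lab c) :=
  Iff.rfl

theorem ok_mono {P : Par} {A A' B : ℕ} (hA : A' ≤ A) (hOk : Ok P A B) : Ok P A' B :=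
  { hOk with
    hr := hA.trans hOk.hr
    hb := (Nat.mul_le_mul_right _ hA).trans hOk.hb
    hB := (Nat.mul_le_mul_right _ (Nat.mul_le_mul_right _ hA)).trans hOk.hB }

/-- the block and the column of a hub replaced -/
def mv {P : Par} (c' : Fin P.b) (j' : Fin P.m) : Vt P → Vt P
  | Sum.inl q => Sum.inl q
  | Sum.inr (Sum.inl (_, l)) => Sum.inr (Sum.inl (c', l))
  | Sum.inr (Sum.inr _) => Sum.inr (Sum.inr j')

/-- is it a column hub -/
def isW {P : Par} : Vt P → Prop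
  | Sum.inl _ => False
  | Sum.inr (Sum.inl _) => False
  | Sum.inr (Sum.inr _) => True

/-- the level of a row hub -/
def lv {P : Par} : Vt P → ℕ
  | Sum.inl _ => 0
  | Sum.inr (Sum.inl (_, l)) => l
  | Sum.inr (Sum.inr _) => 0

/-- every vertex is a bulk vertex, a row hub or a column hub -/
theorem vt_cases {P : Par} (y : Vt P) :
    (∃ p, y = bk p) ∨ (∃ c l, y = tt c l) ∨ (∃ j, y = ww j) := by
  rcases y with p | ⟨c, l⟩ | j
  · exact Or.inl ⟨p, rfl⟩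
  · exact Or.inr (Or.inl ⟨c, l, rfl⟩)
  · exact Or.inr (Or.inr ⟨j, rfl⟩)

/-- the moved neighbours -/
theorem row_moved {P : Par} {p q : Bk P} (hi : (p.1.1 : ℕ) < (q.1.1 : ℕ)) {y : Vt P}
    (h1 : y ∈ nb (gph P) (bk q)) (h2 : y ∉ nb (gph P) (bk p)) (h0 : y ≠ bk p) :
    (∃ c l, y = tt c l ∧ P.blk p.1.2 = c ∧ (l : ℕ) < p.1.1 ∧ P.blk p.1.2 ≠ P.blk q.1.2) ∨
    (y = ww p.1.2 ∧ (p.1.2 : ℕ) ≠ q.1.2) := by
  rw [mem_nb] at h1 h2
  have h3 : Mis P (lab (bk p)) (lab y) := by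
    by_contra h4
    exact h2 ⟨h0.symm, h4⟩
  rcases vt_cases y with ⟨q1, rfl⟩ | ⟨c1, l1, rfl⟩ | ⟨j1, rfl⟩
  · exact absurd h3 (by simp [lab, bk, Mis])
  · left
    obtain ⟨h5, h6⟩ : P.blk p.1.2 = c1 ∧ (l1 : ℕ) < p.1.1 := h3
    refine ⟨c1, l1, rfl, h5, h6, fun h7 => h1.2 ?_⟩
    exact (⟨by rw [← h7, h5], h6.trans hi⟩ : P.blk q.1.2 = c1 ∧ (l1 : ℕ) < q.1.1)
  · right
    have h5 : (p.1.2 : ℕ) = j1 := h3
    have h6 : p.1.2 = j1 := Fin.ext h5
    subst h6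
    exact ⟨rfl, fun h7 => h1.2 (show (q.1.2 : ℕ) = p.1.2 from h7.symm)⟩

/-- the sum of the sizes of the symmetric differences over the moved neighbours -/
theorem row_sum {P : Par} {i : ℕ} {j : Fin P.m} {c0 : ℕ} (I : Finset (Vt P)) (f : Vt P → ℝ)
    (T W : ℝ) (hT : 0 ≤ T) (hW : 0 ≤ W)
    (hI : ∀ y ∈ I, (∃ c l, y = tt c l ∧ c0 = c ∧ (l : ℕ) < i ∧ f y ≤ T) ∨
      (y = ww j ∧ f y ≤ W)) :
    ∑ y ∈ I, f y ≤ (i : ℝ) * T + W := by
  classical
  rw [← Finset.sum_filter_add_sum_filter_not I (fun y => isW y) f, add_comm]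
  refine add_le_add ?_ ?_
  · have h1 : ∑ y ∈ I with ¬ isW y, f y ≤ ∑ y ∈ I with ¬ isW y, T := by
      refine Finset.sum_le_sum fun y hy => ?_
      rw [Finset.mem_filter] at hy
      rcases hI y hy.1 with ⟨c, l, -, -, -, h⟩ | ⟨rfl, -⟩
      · exact h
      · exact absurd trivial hy.2
    have h2 : (I.filter (fun y => ¬ isW y)).card ≤ (Finset.range i).card := by
      refine Finset.card_le_card_of_injOn lv ?_ ?_
      · intro y hy
        rw [Finset.mem_coe, Finset.mem_filter] at hy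
        rcases hI y hy.1 with ⟨c, l, rfl, -, hl, -⟩ | ⟨rfl, -⟩
        · rw [Finset.mem_coe, Finset.mem_range]; exact hl
        · exact absurd trivial hy.2
      · intro y hy y' hy' hyy
        rw [Finset.mem_coe, Finset.mem_filter] at hy hy'
        rcases hI y hy.1 with ⟨c, l, rfl, hc, hl, -⟩ | ⟨rfl, -⟩
        · rcases hI y' hy'.1 with ⟨c2, l2, rfl, hc2, hl2, -⟩ | ⟨rfl, -⟩
          · have e2 : (l : ℕ) = l2 := hyy
            have e3 : l = l2 := Fin.ext e2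
            have e4 : c = c2 := Fin.ext (hc.symm.trans hc2)
            rw [e3, e4]
          · exact absurd trivial hy'.2
        · exact absurd trivial hy.2
    rw [Finset.card_range] at h2
    rw [Finset.sum_const, nsmul_eq_mul] at h1
    refine h1.trans (mul_le_mul_of_nonneg_right ?_ hT)
    exact_mod_cast h2
  · have h1 : ∑ y ∈ I with isW y, f y ≤ ∑ y ∈ I with isW y, W := by
      refine Finset.sum_le_sum fun y hy => ?_
      rw [Finset.mem_filter] at hy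
      rcases hI y hy.1 with ⟨c, l, rfl, -, -, h⟩ | ⟨-, h⟩
      · exact absurd hy.2 id
      · exact h
    have h2 : (I.filter (fun y => isW y)).card ≤ 1 := by
      rw [Finset.card_le_one]
      intro y hy y' hy'
      rw [Finset.mem_filter] at hy hy'
      rcases hI y hy.1 with ⟨c, l, rfl, hc, hl, -⟩ | ⟨rfl, -⟩
      · exact absurd hy.2 id
      · rcases hI y' hy'.1 with ⟨c2, l2, rfl, hc2, hl2, -⟩ | ⟨rfl, -⟩
        · exact absurd hy'.2 id
        · rfl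
    rw [Finset.sum_const, nsmul_eq_mul] at h1
    have h3 : ((I.filter (fun y => isW y)).card : ℝ) ≤ 1 := by exact_mod_cast h2
    calc _ ≤ _ := h1
      _ ≤ 1 * W := mul_le_mul_of_nonneg_right h3 hW
      _ = W := one_mul W

/-- the number of the vertices that are the images of an edge at the root is at least one -/
theorem one_le_card {X : Type} [Finite X] {F : SimpleGraph X} {R : Set X}
    (h : ∃ x ∈ R, ∃ y, F.Adj x y) : 1 ≤ Nat.card X := by
  obtain ⟨x, -⟩ := h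
  have : Nonempty X := ⟨x⟩
  exact Nat.card_pos

/-- JOB ROW -/
theorem row (hD : StDiff) (hBo : StBoth1) (hC : StChain) (hS : StSplit) (hL : StLB1)
    (hZ : StSize) : StRow := by
  classical
  intro X _ F R hR
  have hX1 : 1 ≤ Nat.card X := one_le_card hR
  obtain ⟨c, hc, A1, hL1⟩ := hL X F R hR
  obtain ⟨C, hC0, A2, hZ1⟩ := hZ
  obtain ⟨A3, hA3⟩ := exists_nat_gt (((Nat.card X : ℝ) ^ 2 * (2 * C) * ((1 : ℕ) + 2) + 2) / c)
  refine ⟨max (max A1 A2) (max A3 1), ?_⟩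
  intro P B hOk p q hi
  have hOk1 := ok_mono ((le_max_left A1 A2).trans (le_max_left _ _)) hOk
  have hOk2 := ok_mono ((le_max_right A1 A2).trans (le_max_left _ _)) hOk
  have hOk3 := ok_mono (le_max_right (max A1 A2) (max A3 1)) hOk
  obtain ⟨hm0, hn0, hbB, -, -, han, hsb, hst, hsw, -, -, -⟩ := hZ1 P B hOk2
  have : Nonempty (Vt P) := ⟨bk q⟩
  have hv : (bk q : Vt P) ≠ bk p := by
    intro e
    have := congrArg lab e
    simp only [lab, bk] at this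
    rw [Lab.bulk.injEq] at this
    exact absurd this.1.symm hi.ne
  have hdiff := (hD X (Vt P) F (gph P) R ∅ (bk q) (bk p) hv (Set.notMem_empty _)
    (Set.notMem_empty _)).1
  have hboth := hBo X (Vt P) F (gph P) R ∅ (bk q) (bk p) hv (Set.notMem_empty _)
    (Set.notMem_empty _)
  have hcb : P.blk q.1.2 < P.b := hOk.blk_lt q.1.2 q.1.2.2
  have hi1 : (p.1.1 : ℕ) < P.r := lt_of_lt_of_le hi (Nat.lt_succ_iff.1 q.1.1.2)
  set e : Vt P := tt ⟨P.blk q.1.2, hcb⟩ ⟨(p.1.1 : ℕ), hi1⟩ with he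
  set U : Set (Vt P) := nb (gph P) (bk q) ∩ nb (gph P) (bk p) with hU
  set I : Finset (Vt P) := (Set.toFinite {y | y ∈ nb (gph P) (bk q) ∧
    y ∉ nb (gph P) (bk p) ∧ y ≠ bk p}).toFinset with hI
  have hIm : ∀ y, y ∈ I ↔ y ∈ nb (gph P) (bk q) ∧ y ∉ nb (gph P) (bk p) ∧ y ≠ bk p := by
    intro y; rw [hI, Set.Finite.mem_toFinset, Set.mem_ofPred_eq]
  have hIc : ∀ y ∈ I, (∃ c l, y = tt c l ∧ P.blk p.1.2 = c ∧ (l : ℕ) < p.1.1 ∧
      P.blk p.1.2 ≠ P.blk q.1.2) ∨ (y = ww p.1.2 ∧ (p.1.2 : ℕ) ≠ q.1.2) := by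
    intro y hy
    rw [hIm] at hy
    exact row_moved hi hy.1 hy.2.1 hy.2.2
  -- the moved neighbours
  have hmv1 : ∀ y ∈ I, mv ⟨P.blk q.1.2, hcb⟩ q.1.2 y ∉ nb (gph P) (bk q) := by
    intro y hy hy2
    rw [mem_nb] at hy2
    rcases hIc y hy with ⟨c2, l, rfl, -, hl, -⟩ | ⟨rfl, -⟩
    · exact hy2.2 (⟨rfl, hl.trans hi⟩ : P.blk q.1.2 = P.blk q.1.2 ∧ (l : ℕ) < q.1.1)
    · exact hy2.2 (rfl : (q.1.2 : ℕ) = q.1.2)
  have hhub : ∀ y ∈ I, (∀ p2, y ≠ bk p2) ∧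
      (∀ p2, mv ⟨P.blk q.1.2, hcb⟩ q.1.2 y ≠ bk p2) := by
    intro y hy
    rcases hIc y hy with ⟨c2, l, rfl, -, hl, hne⟩ | ⟨rfl, hne⟩
    · exact ⟨fun _ e => by simpa [lab, bk, tt] using congrArg lab e,
        fun _ e => by simpa [lab, bk, tt, mv] using congrArg lab e⟩
    · exact ⟨fun _ e => by simpa [lab, bk, ww] using congrArg lab e,
        fun _ e => by simpa [lab, bk, ww, mv] using congrArg lab e⟩
  have hmv2 : ∀ y ∈ I, mv ⟨P.blk q.1.2, hcb⟩ q.1.2 y ∈ nb (gph P) (bk p) := by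
    intro y hy
    rw [mem_nb]
    refine ⟨((hhub y hy).2 _).symm, ?_⟩
    rcases hIc y hy with ⟨c2, l, rfl, -, hl, hne⟩ | ⟨rfl, hne⟩
    · intro hm
      have hm' : P.blk p.1.2 = P.blk q.1.2 ∧ (l : ℕ) < p.1.1 := hm
      exact hne hm'.1
    · intro hm
      exact hne hm
  have hch := hC X (Vt P) F (gph P) (bk q) {bk q}
    (E1 R ∅ (bk q) (bk p)) (Finset.mem_singleton_self _)
    (fun φ _ hE b hb => by
      rw [Finset.mem_singleton] at hb
      rw [hb]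
      obtain ⟨x, -, hx⟩ := hE.1
      exact ⟨x, hx⟩)
    (Vt P) I id (mv ⟨P.blk q.1.2, hcb⟩ q.1.2) U
    (by
      intro y hy
      have hy1 := (hIm y).1 hy
      refine ⟨fun hh => hy1.2.1 hh.2, fun hh => hmv1 y hy hh.1, ?_, ?_, ?_, ?_⟩
      · rw [Finset.mem_singleton]; exact (hhub y hy).1 _
      · rw [Finset.mem_singleton]; exact (hhub y hy).2 _
      · intro b hb hb'
        rw [Finset.mem_singleton] at hb
        exact absurd hb hb'
      · rintro φ ⟨⟨x0, hx0R, hx0⟩, hφ, -⟩ τ hτ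
        refine ⟨⟨x0, hx0R, ?_⟩, ?_, fun z hz => absurd hz (Set.notMem_empty _)⟩
        · rw [Function.comp_apply, hx0]
          exact hτ _ ((hhub y hy).1 _).symm ((hhub y hy).2 _).symm
        · rintro ⟨x1, hx1⟩
          rw [Function.comp_apply] at hx1
          have h5 := hτ (bk p) ((hhub y hy).1 _).symm ((hhub y hy).2 _).symm
          exact hφ ⟨x1, τ.injective (hx1.trans h5.symm)⟩)
    (fun y _ y' _ hyy => hyy)
    (by
      intro y hy y' hy' hyy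
      rw [Finset.mem_coe] at hy hy'
      rcases hIc y hy with ⟨c2, l, rfl, hc2, hl, hne⟩ | ⟨rfl, hne⟩
      · rcases hIc y' hy' with ⟨c3, l3, rfl, hc3, hl3, hne3⟩ | ⟨rfl, hne3⟩
        · have e1 : c2 = c3 := Fin.ext (hc2.symm.trans hc3)
          have e3 := congrArg lab hyy
          simp only [mv, tt, lab] at e3
          rw [Lab.t.injEq] at e3
          rw [e1, Fin.ext e3.2]
        · have e3 := congrArg lab hyy
          simp [mv, tt, ww, lab] at e3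
      · rcases hIc y' hy' with ⟨c3, l3, rfl, hc3, hl3, hne3⟩ | ⟨rfl, hne3⟩
        · have e3 := congrArg lab hyy
          simp [mv, tt, ww, lab] at e3
        · rfl)
    (fun y hy y' hy' hyy => by
      have h5 := ((hIm y).1 hy).1
      rw [id_eq] at hyy
      rw [hyy] at h5
      exact hmv1 y' hy' h5)
  -- the vertex `v'` is avoided, so it may be removed from the neighbourhood
  have hU0 : mu F (upd (gph P) (bk q) (nb (gph P) (bk q))) (E1 R ∅ (bk q) (bk p)) ≤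
      mu F (upd (gph P) (bk q) (U ∪ id '' (I : Set (Vt P)))) (E1 R ∅ (bk q) (bk p)) := by
    refine mu_mono ?_
    rintro φ ⟨hφ1, hφ2, hφ3⟩
    refine ⟨hφ1, ?_, hφ3⟩
    have hin : ∀ x, φ x ∈ nb (gph P) (bk q) → φ x ∈ U ∪ id '' (I : Set (Vt P)) := by
      intro x hx
      rw [Set.image_id]
      have hxp : φ x ≠ bk p := fun h => hφ3.2.1 ⟨x, h⟩
      by_cases hx2 : φ x ∈ nb (gph P) (bk p)
      · exact Or.inl ⟨hx, hx2⟩
      · exact Or.inr ((hIm _).2 ⟨hx, hx2, hxp⟩)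
    intro x y hxy
    rcases hφ2 x y hxy with h1 | ⟨h1, h2, h3⟩ | ⟨h1, h2, h3⟩
    · exact Or.inl h1
    · exact Or.inr (Or.inl ⟨h1, h2, hin _ h3⟩)
    · exact Or.inr (Or.inr ⟨h1, h2, hin _ h3⟩)
  have heU : e ∉ U ∪ mv ⟨P.blk q.1.2, hcb⟩ q.1.2 '' (I : Set (Vt P)) := by
    rintro (h5 | ⟨y, hy, hye⟩)
    · have h6 := h5.1
      rw [mem_nb] at h6
      exact h6.2 (⟨rfl, hi⟩ : P.blk q.1.2 = P.blk q.1.2 ∧ (p.1.1 : ℕ) < q.1.1)
    · rcases hIc y hy with ⟨c3, l3, rfl, hc3, hl3, hne3⟩ | ⟨rfl, hne3⟩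
      · have e3 := congrArg lab hye
        rw [he] at e3
        simp only [mv, tt, lab] at e3
        rw [Lab.t.injEq] at e3
        omega
      · have e3 := congrArg lab hye
        rw [he] at e3
        simp [mv, tt, ww, lab] at e3
  have heb : ∀ p2, e ≠ bk p2 := by
    intro p2 h5
    have := congrArg lab h5
    rw [he] at this
    simp [lab, bk, tt] at this
  have hee : e ∈ nb (gph P) (bk p) := by
    rw [mem_nb]
    refine ⟨(heb p).symm, fun hm => ?_⟩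
    have hm' : P.blk p.1.2 = P.blk q.1.2 ∧ (p.1.1 : ℕ) < p.1.1 := hm
    omega
  have hsub : insert e (U ∪ mv ⟨P.blk q.1.2, hcb⟩ q.1.2 '' (I : Set (Vt P))) ⊆
      nb (gph P) (bk p) := by
    rintro y (rfl | hy | ⟨y, hy, rfl⟩)
    · exact hee
    · exact hy.2
    · exact hmv2 y hy
  have hs1 := (hS X (Vt P) F (gph P) (bk q) (E1 R ∅ (bk q) (bk p))).1 _ _ hsub
  have hs2 := (hS X (Vt P) F (gph P) (bk q) (E1 R ∅ (bk q) (bk p))).2.1 _ e heU (heb q)
  have hn : (0 : ℝ) < Nat.card (Vt P) := by exact_mod_cast hn0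
  have hA3' : (Nat.card X : ℝ) ^ 2 * (2 * C) * ((1 : ℕ) + 2) + 2 < c * ((max A3 1 : ℕ) : ℝ) := by
    rw [div_lt_iff₀ hc] at hA3
    have : (A3 : ℝ) ≤ ((max A3 1 : ℕ) : ℝ) := by exact_mod_cast le_max_left A3 1
    nlinarith
  have hAn : ((max A3 1 : ℕ) : ℝ) ≤ Nat.card (Vt P) := by
    have h5 := hOk3.hr
    have h6 : max A3 1 ≤ P.r * P.m := h5.trans (Nat.le_mul_of_pos_right _ hm0)
    have h7 : ((max A3 1 : ℕ) : ℝ) ≤ ((P.r * P.m : ℕ) : ℝ) := by exact_mod_cast h6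
    exact h7.trans han
  have hmiss : {y : Vt P | (∃ p, y = bk p) ∧
      y ∉ insert e (U ∪ mv ⟨P.blk q.1.2, hcb⟩ q.1.2 '' (I : Set (Vt P)))} ⊆
      {bk q, bk p} := by
    rintro y ⟨⟨p2, rfl⟩, hy3⟩
    by_contra hy4
    rw [Set.mem_insert_iff, Set.mem_singleton_iff, not_or] at hy4
    apply hy3
    refine Or.inr (Or.inl ⟨?_, ?_⟩)
    · rw [mem_nb]
      exact ⟨fun h => hy4.1 h.symm, by simp [lab, bk, Mis]⟩
    · rw [mem_nb]
      exact ⟨fun h => hy4.2 h.symm, by simp [lab, bk, Mis]⟩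
  have hmiss2 : ({y : Vt P | (∃ p, y = bk p) ∧
      y ∉ insert e (U ∪ mv ⟨P.blk q.1.2, hcb⟩ q.1.2 '' (I : Set (Vt P)))}.ncard : ℝ) ≤
      c * Nat.card (Vt P) := by
    have h5 := (Set.ncard_le_ncard hmiss (Set.toFinite _)).trans (Set.ncard_insert_le _ _)
    rw [Set.ncard_singleton] at h5
    have h6 : ({y : Vt P | (∃ p, y = bk p) ∧
      y ∉ insert e (U ∪ mv ⟨P.blk q.1.2, hcb⟩ q.1.2 '' (I : Set (Vt P)))}.ncard : ℝ) ≤ 2 := by
      exact_mod_cast h5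
    have h7 : (0 : ℝ) ≤ (Nat.card X : ℝ) ^ 2 * (2 * C) * ((1 : ℕ) + 2) := by positivity
    have h8 : c * ((max A3 1 : ℕ) : ℝ) ≤ c * Nat.card (Vt P) :=
      mul_le_mul_of_nonneg_left hAn hc.le
    linarith
  have hl := hL1 P B hOk1 ∅ (bk q) (bk p) e
    (insert e (U ∪ mv ⟨P.blk q.1.2, hcb⟩ q.1.2 '' (I : Set (Vt P))))
    (by rw [Set.ncard_empty]; omega) hv (heb q) (heb p) (Set.notMem_empty _)
    (Set.notMem_empty _) (Set.mem_insert _ _) hmiss2
  -- the error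
  have hB1 : 1 ≤ B := by
    have h5 := hOk3.hB
    have h6 := hOk3.hb
    have h7 : 1 ≤ max A3 1 := le_max_right _ _
    have h10 : 0 < P.r := lt_of_le_of_lt (Nat.zero_le _) hi1
    have h8 : 0 < P.b := lt_of_le_of_lt (Nat.zero_le _) hcb
    have h9 : 0 < max A3 1 * P.r * P.b := by positivity
    omega
  have hsum : ∑ y ∈ I, ((sd (gph P) (id y) (mv ⟨P.blk q.1.2, hcb⟩ q.1.2 y)).ncard : ℝ) ≤
      ((p.1.1 : ℕ) : ℝ) * (C * (P.r * B)) + C * (P.r + P.m) := by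
    refine row_sum (i := (p.1.1 : ℕ)) (j := p.1.2) (c0 := P.blk p.1.2) I _ _ _
      (by positivity) (by positivity) ?_
    intro y hy
    rcases hIc y hy with ⟨c2, l, rfl, hc2, hl, hne⟩ | ⟨rfl, hne⟩
    · exact Or.inl ⟨c2, l, rfl, hc2, hl, hst c2 _ l l⟩
    · refine Or.inr ⟨rfl, (hsw p.1.2 q.1.2).trans ?_⟩
      have h5 : |((p.1.2 : ℕ) : ℝ) - ((q.1.2 : ℕ) : ℝ)| ≤ P.m := by
        have h6 : ((p.1.2 : ℕ) : ℝ) ≤ P.m := by exact_mod_cast p.1.2.2.le
        have h7 : ((q.1.2 : ℕ) : ℝ) ≤ P.m := by exact_mod_cast q.1.2.2.le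
        have h8 : (0 : ℝ) ≤ ((p.1.2 : ℕ) : ℝ) := by positivity
        have h9 : (0 : ℝ) ≤ ((q.1.2 : ℕ) : ℝ) := by positivity
        rw [abs_le]
        constructor <;> linarith
      gcongr
  rw [← Finset.sum_mul, Finset.card_singleton] at hch
  have hnum := FI.row_num (k := Nat.card X) (n := Nat.card (Vt P)) (a := P.r) (m := P.m) (b := P.b)
    (B := B) (xb := 1) (i := P.r) (A := max A3 1) (C := 2 * C) (c := c) hX1 (by positivity)
    (le_max_right _ _) (by linarith) hOk3.hr hOk3.hb hB1 hbB han (by omega)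
  have hk : (1 : ℝ) ≤ Nat.card X := by exact_mod_cast hX1
  have herr2 : 0 < err X (Vt P) 2 := by unfold err; positivity
  have hsb' := hsb q p
  have htot : (∑ y ∈ I, ((sd (gph P) (id y) (mv ⟨P.blk q.1.2, hcb⟩ q.1.2 y)).ncard : ℝ)) +
      ((sd (gph P) (bk q) (bk p)).ncard : ℝ) ≤
      (Nat.card X : ℝ) * P.r * (2 * C * (P.r * B)) + Nat.card X * (2 * C * (P.r + P.m)) := by
    have h5 : ((p.1.1 : ℕ) : ℝ) * (C * (P.r * B)) ≤ (P.r : ℝ) * (C * (P.r * B)) := by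
      have h6 : ((p.1.1 : ℕ) : ℝ) ≤ P.r := by exact_mod_cast hi1.le
      exact mul_le_mul_of_nonneg_right h6 (by positivity)
    have h6 : (P.r : ℝ) * (C * (P.r * B)) ≤ (Nat.card X : ℝ) * P.r * (2 * C * (P.r * B)) := by
      have h7 : 0 ≤ (P.r : ℝ) * (C * (P.r * B)) := by positivity
      calc (P.r : ℝ) * (C * (P.r * B)) ≤ 2 * ((P.r : ℝ) * (C * (P.r * B))) := by linarith
        _ ≤ (Nat.card X : ℝ) * (2 * ((P.r : ℝ) * (C * (P.r * B)))) :=
          le_mul_of_one_le_left (by positivity) hk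
        _ = (Nat.card X : ℝ) * P.r * (2 * C * (P.r * B)) := by ring
    have h7 : C * (P.r + P.m) + C * P.r ≤ (Nat.card X : ℝ) * (2 * C * (P.r + P.m)) := by
      have h8 : 0 ≤ C * (P.m : ℝ) := by positivity
      calc C * (P.r + P.m) + C * P.r ≤ 2 * C * (P.r + P.m) := by linarith
        _ ≤ (Nat.card X : ℝ) * (2 * C * (P.r + P.m)) :=
          le_mul_of_one_le_left (by positivity) hk
    linarith
  have h10 : ((∑ y ∈ I, ((sd (gph P) (id y) (mv ⟨P.blk q.1.2, hcb⟩ q.1.2 y)).ncard : ℝ)) +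
      ((sd (gph P) (bk q) (bk p)).ncard : ℝ)) * err X (Vt P) (1 + 2) < c * err X (Vt P) 2 := by
    calc ((∑ y ∈ I, ((sd (gph P) (id y) (mv ⟨P.blk q.1.2, hcb⟩ q.1.2 y)).ncard : ℝ)) +
          ((sd (gph P) (bk q) (bk p)).ncard : ℝ)) * err X (Vt P) (1 + 2) ≤
          ((Nat.card X : ℝ) * P.r * (2 * C * (P.r * B)) +
            Nat.card X * (2 * C * (P.r + P.m))) * err X (Vt P) (1 + 2) :=
          mul_le_mul_of_nonneg_right htot (err_nonneg _ _ _)
      _ = (((Nat.card X : ℝ) * P.r * (2 * C * (P.r * B)) +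
            Nat.card X * (2 * C * (P.r + P.m))) * Nat.card X) / Nat.card (Vt P) *
            err X (Vt P) 2 := by
          rw [show (1 + 2 : ℕ) = 2 + 1 from rfl, err_succ]
          ring
      _ < c * err X (Vt P) 2 := by
          refine mul_lt_mul_of_pos_right ?_ herr2
          rw [div_lt_iff₀ hn]
          exact hnum
  rw [add_mul] at h10
  rw [show (1 + 2 : ℕ) = 3 from rfl] at h10 hch
  linarith

end Pool.Agent.K7.H42.UI
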